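import Pool.Agent.Run7.h321.Aff
import Pool.Agent.Run7.h321.Chart

set_option autoImplicit false

namespace Pool.Agent.Results.MP_75cc19_co.MultiplicityThird

open Run7.h321

/-- Two planes of `ℂ³` have a common nonzero vector. -/
private theorem exists_common {ℓ₁ ℓ₂ : Submodule ℂ (Fin 3 → ℂ)}
    (h₁ : Module.finrank ℂ ℓ₁ = 2) (h₂ : Module.finrank ℂ ℓ₂ = 2) :
    ∃ q : Fin 3 → ℂ, q ≠ 0 ∧ q ∈ ℓ₁ ∧ q ∈ ℓ₂ := by
  have h := Submodule.finrank_sup_add_finrank_inf_eq ℓ₁ ℓ₂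
  have h3 : Module.finrank ℂ (ℓ₁ ⊔ ℓ₂ : Submodule ℂ (Fin 3 → ℂ)) ≤ 3 := by
    have := Submodule.finrank_le (ℓ₁ ⊔ ℓ₂)
    simpa using this
  have hne : (ℓ₁ ⊓ ℓ₂ : Submodule ℂ (Fin 3 → ℂ)) ≠ ⊥ := by
    intro h0
    rw [h0, finrank_bot] at h
    omega
  obtain ⟨q, hq, hq0⟩ := Submodule.exists_mem_ne_zero_of_ne_bot hne
  exact ⟨q, hq0, (Submodule.mem_inf.mp hq).1, (Submodule.mem_inf.mp hq).2⟩

/-- Let `A` be a finite set of lines of the complex projective plane without double points which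
is not a pencil. If `m` lines of `A` pass through a point `p`, then `A` has at least `3 * m` lines,
and if `A` has exactly `3 * m` lines, then `A` is projectively the Fermat arrangement of
order `m`. -/
theorem result (A : Set (Submodule ℂ (Fin 3 → ℂ))) (hfin : A.Finite)
    (hline : ∀ ℓ ∈ A, Module.finrank ℂ ℓ = 2)
    (hdouble : ∀ ℓ₁ ∈ A, ∀ ℓ₂ ∈ A, ℓ₁ ≠ ℓ₂ → ∀ p : Submodule ℂ (Fin 3 → ℂ),
      Module.finrank ℂ p = 1 → p ≤ ℓ₁ → p ≤ ℓ₂ →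
        ∃ ℓ₃ ∈ A, ℓ₃ ≠ ℓ₁ ∧ ℓ₃ ≠ ℓ₂ ∧ p ≤ ℓ₃)
    (hpencil : ¬ ∃ p : Submodule ℂ (Fin 3 → ℂ), Module.finrank ℂ p = 1 ∧ ∀ ℓ ∈ A, p ≤ ℓ)
    (p : Submodule ℂ (Fin 3 → ℂ)) (hp : Module.finrank ℂ p = 1) :
    3 * {ℓ ∈ A | p ≤ ℓ}.ncard ≤ A.ncard ∧
    (A.ncard = 3 * {ℓ ∈ A | p ≤ ℓ}.ncard →
      ∃ g : (Fin 3 → ℂ) ≃ₗ[ℂ] (Fin 3 → ℂ),
        A = Submodule.map g.toLinearMap ''
          {ℓ : Submodule ℂ (Fin 3 → ℂ) | Module.finrank ℂ ℓ = 2 ∧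
            ∃ ζ : ℂ, ζ ^ {ℓ ∈ A | p ≤ ℓ}.ncard = 1 ∧
              ((∀ x ∈ ℓ, x 0 = ζ * x 1) ∨ (∀ x ∈ ℓ, x 0 = ζ * x 2) ∨
                (∀ x ∈ ℓ, x 1 = ζ * x 2))}) := by
  classical
  -- a generator of `p`
  obtain ⟨v, hv0, hvp⟩ : ∃ v : Fin 3 → ℂ, v ≠ 0 ∧ p = Submodule.span ℂ {v} := by
    obtain ⟨⟨v, hv⟩, hv0, hspan⟩ := finrank_eq_one_iff'.mp hp
    refine ⟨v, fun h => hv0 (Subtype.ext h), ?_⟩
    apply le_antisymm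
    · intro y hy
      obtain ⟨c, hc⟩ := hspan ⟨y, hy⟩
      rw [Submodule.mem_span_singleton]
      exact ⟨c, congrArg Subtype.val hc⟩
    · rw [Submodule.span_singleton_le_iff_mem]; exact hv
  have hple : ∀ ℓ : Submodule ℂ (Fin 3 → ℂ), p ≤ ℓ ↔ v ∈ ℓ := by
    intro ℓ
    rw [hvp, Submodule.span_singleton_le_iff_mem]
  obtain ⟨M, a, hM0, hM1, hM2, hmem, hin, hout, hinj⟩ := exists_chart A hfin hline hv0
  have heq_of_le : ∀ ℓ ∈ A, ∀ ℓ' ∈ A, ℓ ≤ ℓ' → ℓ = ℓ' := fun ℓ hℓ ℓ' hℓ' hle =>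
    Submodule.eq_of_le_of_finrank_eq hle (by rw [hline ℓ hℓ, hline ℓ' hℓ'])
  -- the finite sets
  set F : Finset (Submodule ℂ (Fin 3 → ℂ)) := hfin.toFinset with hF
  have hFm : ∀ ℓ, ℓ ∈ F ↔ ℓ ∈ A := fun ℓ => by rw [hF, Set.Finite.mem_toFinset]
  set F₀ := F.filter fun ℓ => v ∈ ℓ with hF₀
  set F₁ := F.filter fun ℓ => v ∉ ℓ with hF₁
  have hF₀m : ∀ ℓ, ℓ ∈ F₀ ↔ ℓ ∈ A ∧ v ∈ ℓ := fun ℓ => by
    rw [hF₀, Finset.mem_filter, hFm]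
  have hF₁m : ∀ ℓ, ℓ ∈ F₁ ↔ ℓ ∈ A ∧ v ∉ ℓ := fun ℓ => by
    rw [hF₁, Finset.mem_filter, hFm]
  have hcardA : A.ncard = F₀.card + F₁.card := by
    rw [Set.ncard_eq_toFinset_card A hfin, ← hF, hF₀, hF₁]
    exact (Finset.card_filter_add_card_filter_not (fun ℓ => v ∈ ℓ)).symm
  have hcard0 : {ℓ ∈ A | p ≤ ℓ}.ncard = F₀.card := by
    rw [← Set.ncard_coe_finset]
    congr 1
    ext ℓ
    rw [Finset.mem_coe, hF₀m, ← hple]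
    rfl
  rw [hcard0, hcardA]
  -- slopes and points
  set Θ : Finset ℂ := F₀.image fun ℓ => a ℓ 2 with hΘ
  set B : Finset (ℂ × ℂ) := F₁.image fun ℓ => (a ℓ 1, a ℓ 2) with hB
  have hinj0 : ∀ ℓ ∈ F₀, ∀ ℓ' ∈ F₀, a ℓ 2 = a ℓ' 2 → ℓ = ℓ' := by
    intro ℓ hℓ ℓ' hℓ' he
    obtain ⟨h1, h2⟩ := (hF₀m ℓ).mp hℓ
    obtain ⟨h3, h4⟩ := (hF₀m ℓ').mp hℓ'
    apply heq_of_le ℓ h1 ℓ' h3
    intro y hy
    rw [hmem ℓ h1 y, (hin ℓ h1 h2).1, (hin ℓ h1 h2).2, he] at hy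
    rw [hmem ℓ' h3 y, (hin ℓ' h3 h4).1, (hin ℓ' h3 h4).2]
    exact hy
  have hinj1 : ∀ ℓ ∈ F₁, ∀ ℓ' ∈ F₁, a ℓ 1 = a ℓ' 1 → ℓ = ℓ' := by
    intro ℓ hℓ ℓ' hℓ' he
    obtain ⟨h1, h2⟩ := (hF₁m ℓ).mp hℓ
    obtain ⟨h3, h4⟩ := (hF₁m ℓ').mp hℓ'
    exact hinj ℓ h1 ℓ' h3 h2 h4 he
  have hΘc : Θ.card = F₀.card := Finset.card_image_of_injOn fun ℓ hℓ ℓ' hℓ' he =>
    hinj0 ℓ hℓ ℓ' hℓ' he
  have hBc : B.card = F₁.card := Finset.card_image_of_injOn fun ℓ hℓ ℓ' hℓ' he =>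
    hinj1 ℓ hℓ ℓ' hℓ' (congrArg Prod.fst he)
  have hBmem : ∀ b, b ∈ B → ∃ ℓ ∈ A, v ∉ ℓ ∧ b = (a ℓ 1, a ℓ 2) := by
    intro b hb
    obtain ⟨ℓ, hℓ, rfl⟩ := Finset.mem_image.mp hb
    exact ⟨ℓ, ((hF₁m ℓ).mp hℓ).1, ((hF₁m ℓ).mp hℓ).2, rfl⟩
  have hBmem' : ∀ ℓ ∈ A, v ∉ ℓ → (a ℓ 1, a ℓ 2) ∈ B := fun ℓ h1 h2 =>
    Finset.mem_image_of_mem _ ((hF₁m ℓ).mpr ⟨h1, h2⟩)
  have hΘmem : ∀ θ, θ ∈ Θ → ∃ ℓ ∈ A, v ∈ ℓ ∧ θ = a ℓ 2 := by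
    intro θ hθ
    obtain ⟨ℓ, hℓ, rfl⟩ := Finset.mem_image.mp hθ
    exact ⟨ℓ, ((hF₀m ℓ).mp hℓ).1, ((hF₀m ℓ).mp hℓ).2, rfl⟩
  have hΘmem' : ∀ ℓ ∈ A, v ∈ ℓ → a ℓ 2 ∈ Θ := fun ℓ h1 h2 =>
    Finset.mem_image_of_mem _ ((hF₀m ℓ).mpr ⟨h1, h2⟩)
  -- some line misses `p`
  have hBne : B.Nonempty := by
    by_contra hcon
    rw [Finset.not_nonempty_iff_eq_empty] at hcon
    apply hpencil
    refine ⟨p, hp, fun ℓ hℓ => ?_⟩
    rw [hple]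
    by_contra h
    have := hBmem' ℓ hℓ h
    rw [hcon] at this
    simp at this
  have hxB : ∀ b ∈ B, ∀ b' ∈ B, b.1 = b'.1 → b = b' := by
    intro b hb b' hb' he
    obtain ⟨ℓ, h1, h2, rfl⟩ := hBmem b hb
    obtain ⟨ℓ', h3, h4, rfl⟩ := hBmem b' hb'
    have := hinj ℓ h1 ℓ' h3 h2 h4 he
    rw [this]
  -- the no double point condition in coordinates
  have hthird : ∀ ℓ₁ ∈ A, ∀ ℓ₂ ∈ A, ℓ₁ ≠ ℓ₂ → ∃ q : Fin 3 → ℂ, q ≠ 0 ∧ q ∈ ℓ₁ ∧ q ∈ ℓ₂ ∧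
      ∃ ℓ₃ ∈ A, ℓ₃ ≠ ℓ₁ ∧ ℓ₃ ≠ ℓ₂ ∧ q ∈ ℓ₃ := by
    intro ℓ₁ h₁ ℓ₂ h₂ h12
    obtain ⟨q, hq0, hq1, hq2⟩ := exists_common (hline ℓ₁ h₁) (hline ℓ₂ h₂)
    obtain ⟨ℓ₃, h₃, h31, h32, h3⟩ := hdouble ℓ₁ h₁ ℓ₂ h₂ h12 (Submodule.span ℂ {q})
      (finrank_span_singleton hq0)
      (by rw [Submodule.span_singleton_le_iff_mem]; exact hq1)
      (by rw [Submodule.span_singleton_le_iff_mem]; exact hq2)
    rw [Submodule.span_singleton_le_iff_mem] at h3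
    exact ⟨q, hq0, hq1, hq2, ℓ₃, h₃, h31, h32, h3⟩
  have hMq : ∀ q : Fin 3 → ℂ, q ≠ 0 → M q 0 ≠ 0 ∨ M q 1 ≠ 0 ∨ M q 2 ≠ 0 := by
    intro q hq
    by_contra hcon
    push Not at hcon
    apply hq
    rw [← LinearEquiv.map_eq_zero_iff M]
    funext i
    fin_cases i
    · exact hcon.1
    · exact hcon.2.1
    · exact hcon.2.2
  have H1 : ∀ θ ∈ Θ, ∀ b ∈ B, ∃ b' ∈ B, b' ≠ b ∧ fib θ b' = fib θ b := by
    intro θ hθ b hb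
    obtain ⟨ℓ₁, h1, hv1, rfl⟩ := hΘmem θ hθ
    obtain ⟨ℓ₂, h2, hv2, rfl⟩ := hBmem b hb
    have h12 : ℓ₁ ≠ ℓ₂ := fun h => hv2 (h ▸ hv1)
    obtain ⟨q, hq0, hq1, hq2, ℓ₃, h3, h31, h32, hq3⟩ := hthird ℓ₁ h1 ℓ₂ h2 h12
    rw [hmem ℓ₁ h1, (hin ℓ₁ h1 hv1).1, (hin ℓ₁ h1 hv1).2] at hq1
    rw [hmem ℓ₂ h2, hout ℓ₂ h2 hv2] at hq2
    have hz : M q 2 ≠ 0 := by
      intro hz
      rw [hz] at hq1 hq2
      have hy : M q 1 = 0 := by linear_combination hq1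
      rw [hy] at hq2
      have hx : M q 0 = 0 := by linear_combination hq2
      rcases hMq q hq0 with h | h | h
      · exact h hx
      · exact h hy
      · exact h hz
    have hv3 : v ∉ ℓ₃ := by
      intro hv3
      apply h31
      apply hinj0 ℓ₃ ((hF₀m ℓ₃).mpr ⟨h3, hv3⟩) ℓ₁ ((hF₀m ℓ₁).mpr ⟨h1, hv1⟩)
      rw [hmem ℓ₃ h3, (hin ℓ₃ h3 hv3).1, (hin ℓ₃ h3 hv3).2] at hq3
      apply mul_right_cancel₀ hz
      linear_combination hq3 - hq1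
    refine ⟨(a ℓ₃ 1, a ℓ₃ 2), hBmem' ℓ₃ h3 hv3, ?_, ?_⟩
    · intro he
      exact h32 (hinj ℓ₃ h3 ℓ₂ h2 hv3 hv2 (congrArg Prod.fst he))
    · rw [hmem ℓ₃ h3, hout ℓ₃ h3 hv3] at hq3
      unfold fib
      apply mul_right_cancel₀ hz
      linear_combination hq3 - hq2 - (a ℓ₃ 1 - a ℓ₂ 1) * hq1
  have H2 : ∀ b ∈ B, ∀ b' ∈ B, b ≠ b' → (∃ θ ∈ Θ, fib θ b = fib θ b') ∨
      ∃ b'' ∈ B, b'' ≠ b ∧ b'' ≠ b' ∧ col b b' b'' := by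
    intro b hb b' hb' hbb
    obtain ⟨ℓ₁, h1, hv1, rfl⟩ := hBmem b hb
    obtain ⟨ℓ₂, h2, hv2, rfl⟩ := hBmem b' hb'
    have h12 : ℓ₁ ≠ ℓ₂ := by
      rintro rfl
      exact hbb rfl
    obtain ⟨q, hq0, hq1, hq2, ℓ₃, h3, h31, h32, hq3⟩ := hthird ℓ₁ h1 ℓ₂ h2 h12
    rw [hmem ℓ₁ h1, hout ℓ₁ h1 hv1] at hq1
    rw [hmem ℓ₂ h2, hout ℓ₂ h2 hv2] at hq2
    by_cases hv3 : v ∈ ℓ₃
    · left
      refine ⟨a ℓ₃ 2, hΘmem' ℓ₃ h3 hv3, ?_⟩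
      rw [hmem ℓ₃ h3, (hin ℓ₃ h3 hv3).1, (hin ℓ₃ h3 hv3).2] at hq3
      have hz : M q 2 ≠ 0 := by
        intro hz
        rw [hz] at hq1 hq3
        have hy : M q 1 = 0 := by linear_combination hq3
        rw [hy] at hq1
        have hx : M q 0 = 0 := by linear_combination hq1
        rcases hMq q hq0 with h | h | h
        · exact h hx
        · exact h hy
        · exact h hz
      unfold fib
      apply mul_right_cancel₀ hz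
      linear_combination hq1 - hq2 - (a ℓ₁ 1 - a ℓ₂ 1) * hq3
    · right
      refine ⟨(a ℓ₃ 1, a ℓ₃ 2), hBmem' ℓ₃ h3 hv3, ?_, ?_, ?_⟩
      · intro he
        exact h31 (hinj ℓ₃ h3 ℓ₁ h1 hv3 hv1 (congrArg Prod.fst he))
      · intro he
        exact h32 (hinj ℓ₃ h3 ℓ₂ h2 hv3 hv2 (congrArg Prod.fst he))
      · rw [hmem ℓ₃ h3, hout ℓ₃ h3 hv3] at hq3
        unfold col
        have e2 : (a ℓ₂ 1 - a ℓ₁ 1) * M q 1 + (a ℓ₂ 2 - a ℓ₁ 2) * M q 2 = 0 := by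
          linear_combination hq2 - hq1
        have e3 : (a ℓ₃ 1 - a ℓ₁ 1) * M q 1 + (a ℓ₃ 2 - a ℓ₁ 2) * M q 2 = 0 := by
          linear_combination hq3 - hq1
        by_cases hz : M q 2 = 0
        · have hy : M q 1 ≠ 0 := by
            intro hy
            rw [hz, hy] at hq1
            have hx : M q 0 = 0 := by linear_combination hq1
            rcases hMq q hq0 with h | h | h
            · exact h hx
            · exact h hy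
            · exact h hz
          apply mul_right_cancel₀ hy
          simp only
          linear_combination (a ℓ₃ 2 - a ℓ₁ 2) * e2 - (a ℓ₂ 2 - a ℓ₁ 2) * e3
        · apply mul_right_cancel₀ hz
          simp only
          linear_combination (a ℓ₂ 1 - a ℓ₁ 1) * e3 - (a ℓ₃ 1 - a ℓ₁ 1) * e2
  obtain ⟨hmain1, hmain2⟩ := affine_main B Θ hBne hxB H1 H2
  rw [hΘc, hBc] at hmain1
  refine ⟨by omega, ?_⟩
  intro heq
  have hF₁2 : F₁.card = 2 * F₀.card := by omega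
  -- at least two lines through `p`
  have htwo : 2 ≤ F₀.card := by
    by_contra hlt
    push Not at hlt
    rcases Nat.lt_or_ge F₀.card 1 with h0 | h1
    · have : F₁.card = 0 := by omega
      rw [← hBc, Finset.card_eq_zero] at this
      rw [this] at hBne
      simp at hBne
    · have hc1 : F₀.card = 1 := by omega
      have hc2 : F₁.card = 2 := by omega
      obtain ⟨ℓ₁, ℓ₂, h12, hF₁e⟩ := Finset.card_eq_two.mp hc2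
      obtain ⟨ℓ₀, hF₀e⟩ := Finset.card_eq_one.mp hc1
      have hm1 : ℓ₁ ∈ A ∧ v ∉ ℓ₁ := (hF₁m ℓ₁).mp (by rw [hF₁e]; simp)
      have hm2 : ℓ₂ ∈ A ∧ v ∉ ℓ₂ := (hF₁m ℓ₂).mp (by rw [hF₁e]; simp)
      obtain ⟨q, hq0, hq1, hq2, ℓ₃, h3, h31, h32, hq3⟩ := hthird ℓ₁ hm1.1 ℓ₂ hm2.1 h12
      apply hpencil
      refine ⟨Submodule.span ℂ {q}, finrank_span_singleton hq0, ?_⟩
      have hall : ∀ ℓ ∈ A, ℓ = ℓ₀ ∨ ℓ = ℓ₁ ∨ ℓ = ℓ₂ := by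
        intro ℓ hℓ
        by_cases hvℓ : v ∈ ℓ
        · have : ℓ ∈ F₀ := (hF₀m ℓ).mpr ⟨hℓ, hvℓ⟩
          rw [hF₀e, Finset.mem_singleton] at this
          exact Or.inl this
        · have : ℓ ∈ F₁ := (hF₁m ℓ).mpr ⟨hℓ, hvℓ⟩
          rw [hF₁e, Finset.mem_insert, Finset.mem_singleton] at this
          exact Or.inr this
      have h30 : ℓ₃ = ℓ₀ := by
        rcases hall ℓ₃ h3 with h | h | h
        · exact h
        · exact absurd h h31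
        · exact absurd h h32
      intro ℓ hℓ
      rw [Submodule.span_singleton_le_iff_mem]
      rcases hall ℓ hℓ with rfl | rfl | rfl
      · rw [← h30]; exact hq3
      · exact hq1
      · exact hq2
  obtain ⟨x₀, y₀, α, γ, s₀, t₀, hs₀, ht₀, hαγ, hBiff, hΘiff⟩ :=
    hmain2 (by rw [hBc, hΘc]; exact hF₁2) (by rw [hΘc]; exact htwo)
  rw [hΘc] at hBiff hΘiff
  set n := F₀.card with hn
  have hαγ' : α - γ ≠ 0 := sub_ne_zero.mpr hαγ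
  -- the coordinate change
  let h : (Fin 3 → ℂ) →ₗ[ℂ] (Fin 3 → ℂ) :=
    { toFun := fun y => ![-(M y 0 + x₀ * M y 1 + y₀ * M y 2), s₀ * (M y 1 + α * M y 2),
        t₀ * (M y 1 + γ * M y 2)]
      map_add' := by
        intro y z
        funext i
        fin_cases i <;> simp <;> ring
      map_smul' := by
        intro c y
        funext i
        fin_cases i <;> simp <;> ring }
  have hh0 : ∀ y, h y 0 = -(M y 0 + x₀ * M y 1 + y₀ * M y 2) := fun y => rfl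
  have hh1 : ∀ y, h y 1 = s₀ * (M y 1 + α * M y 2) := fun y => rfl
  have hh2 : ∀ y, h y 2 = t₀ * (M y 1 + γ * M y 2) := fun y => rfl
  have hhinj : Function.Injective h := by
    rw [← LinearMap.ker_eq_bot, Submodule.eq_bot_iff]
    intro y hy
    rw [LinearMap.mem_ker] at hy
    have e0 : -(M y 0 + x₀ * M y 1 + y₀ * M y 2) = 0 := by rw [← hh0, hy]; rfl
    have e1 : s₀ * (M y 1 + α * M y 2) = 0 := by rw [← hh1, hy]; rfl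
    have e2 : t₀ * (M y 1 + γ * M y 2) = 0 := by rw [← hh2, hy]; rfl
    have e1' := (mul_eq_zero.mp e1).resolve_left hs₀
    have e2' := (mul_eq_zero.mp e2).resolve_left ht₀
    have e3 : (α - γ) * M y 2 = 0 := by linear_combination e1' - e2'
    have hz := (mul_eq_zero.mp e3).resolve_left hαγ'
    rw [hz] at e1' e0
    have hy1 : M y 1 = 0 := by linear_combination e1'
    rw [hy1] at e0
    have hx : M y 0 = 0 := by linear_combination -e0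
    by_contra hne
    rcases hMq y hne with h' | h' | h'
    · exact h' hx
    · exact h' hy1
    · exact h' hz
  let he : (Fin 3 → ℂ) ≃ₗ[ℂ] (Fin 3 → ℂ) := LinearEquiv.ofInjectiveEndo h hhinj
  have hhe : ∀ y, he y = h y := fun y => rfl
  refine ⟨he.symm, ?_⟩
  -- general facts
  have hs_ne : ∀ ζ : ℂ, ζ ^ n = 1 → s₀ - t₀ * ζ ≠ 0 := by
    intro ζ hζ h0
    have hb1 : ((x₀ + s₀ * 1, y₀ + α * (s₀ * 1)) : ℂ × ℂ) ∈ B :=
      (hBiff _).mpr ⟨1, one_pow n, Or.inl rfl⟩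
    have hb2 : ((x₀ + t₀ * ζ, y₀ + γ * (t₀ * ζ)) : ℂ × ℂ) ∈ B :=
      (hBiff _).mpr ⟨ζ, hζ, Or.inr rfl⟩
    have h1 := hxB _ hb1 _ hb2 (by simp only; linear_combination h0)
    have h2 := congrArg Prod.snd h1
    simp only at h2
    have h3 : (α - γ) * s₀ = 0 := by linear_combination h2 - γ * h0
    exact (mul_ne_zero hαγ' hs₀) h3
  ext ℓ
  constructor
  · intro hℓ
    refine ⟨Submodule.map he.toLinearMap ℓ, ⟨?_, ?_⟩, ?_⟩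
    · rw [LinearEquiv.finrank_map_eq]; exact hline ℓ hℓ
    · by_cases hvℓ : v ∈ ℓ
      · obtain ⟨ζ, hζ, _, hζ'⟩ := (hΘiff _).mp (hΘmem' ℓ hℓ hvℓ)
        refine ⟨ζ, hζ, Or.inr (Or.inr ?_)⟩
        rintro x ⟨y, hy, rfl⟩
        have hy' := (hmem ℓ hℓ y).mp hy
        rw [(hin ℓ hℓ hvℓ).1, (hin ℓ hℓ hvℓ).2] at hy'
        change h y 1 = ζ * h y 2
        rw [hh1, hh2]
        linear_combination (s₀ - t₀ * ζ) * hy' - M y 2 * hζ'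
      · obtain ⟨ζ, hζ, hζ'⟩ := (hBiff _).mp (hBmem' ℓ hℓ hvℓ)
        rcases hζ' with hζ' | hζ'
        · refine ⟨ζ, hζ, Or.inl ?_⟩
          rintro x ⟨y, hy, rfl⟩
          have hy' := (hmem ℓ hℓ y).mp hy
          have e1 : a ℓ 1 = x₀ + s₀ * ζ := congrArg Prod.fst hζ'
          have e2 : a ℓ 2 = y₀ + α * (s₀ * ζ) := congrArg Prod.snd hζ'
          rw [hout ℓ hℓ hvℓ, e1, e2] at hy'
          change h y 0 = ζ * h y 1
          rw [hh0, hh1]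
          linear_combination -hy'
        · refine ⟨ζ, hζ, Or.inr (Or.inl ?_)⟩
          rintro x ⟨y, hy, rfl⟩
          have hy' := (hmem ℓ hℓ y).mp hy
          have e1 : a ℓ 1 = x₀ + t₀ * ζ := congrArg Prod.fst hζ'
          have e2 : a ℓ 2 = y₀ + γ * (t₀ * ζ) := congrArg Prod.snd hζ'
          rw [hout ℓ hℓ hvℓ, e1, e2] at hy'
          change h y 0 = ζ * h y 2
          rw [hh0, hh2]
          linear_combination -hy'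
    · rw [← Submodule.map_comp]
      convert Submodule.map_id ℓ
      ext y : 1
      simp
  · rintro ⟨ℓ', ⟨hrk, ζ, hζ, hcase⟩, rfl⟩
    have hrk' : Module.finrank ℂ (Submodule.map he.symm.toLinearMap ℓ') = 2 := by
      rw [LinearEquiv.finrank_map_eq]; exact hrk
    have hyh : ∀ y, y ∈ Submodule.map he.symm.toLinearMap ℓ' → h y ∈ ℓ' := by
      rintro y ⟨x, hx, rfl⟩
      have : h (he.symm x) = x := by rw [← hhe]; simp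
      change h (he.symm x) ∈ ℓ'
      rw [this]; exact hx
    have hfinish : ∀ ℓ ∈ A, (∀ y, h y ∈ ℓ' → y ∈ ℓ) →
        Submodule.map he.symm.toLinearMap ℓ' ∈ A := by
      intro ℓ hℓ hsub
      have hle : Submodule.map he.symm.toLinearMap ℓ' ≤ ℓ := fun y hy => hsub y (hyh y hy)
      rw [Submodule.eq_of_le_of_finrank_eq hle (by rw [hrk', hline ℓ hℓ])]
      exact hℓ
    rcases hcase with hc | hc | hc
    · have hb : ((x₀ + s₀ * ζ, y₀ + α * (s₀ * ζ)) : ℂ × ℂ) ∈ B :=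
        (hBiff _).mpr ⟨ζ, hζ, Or.inl rfl⟩
      obtain ⟨ℓ, hℓ, hvℓ, heb⟩ := hBmem _ hb
      have e1 : x₀ + s₀ * ζ = a ℓ 1 := congrArg Prod.fst heb
      have e2 : y₀ + α * (s₀ * ζ) = a ℓ 2 := congrArg Prod.snd heb
      apply hfinish ℓ hℓ
      intro y hy
      have h1 := hc _ hy
      rw [hh0, hh1] at h1
      rw [hmem ℓ hℓ, hout ℓ hℓ hvℓ, ← e1, ← e2]
      linear_combination -h1
    · have hb : ((x₀ + t₀ * ζ, y₀ + γ * (t₀ * ζ)) : ℂ × ℂ) ∈ B :=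
        (hBiff _).mpr ⟨ζ, hζ, Or.inr rfl⟩
      obtain ⟨ℓ, hℓ, hvℓ, heb⟩ := hBmem _ hb
      have e1 : x₀ + t₀ * ζ = a ℓ 1 := congrArg Prod.fst heb
      have e2 : y₀ + γ * (t₀ * ζ) = a ℓ 2 := congrArg Prod.snd heb
      apply hfinish ℓ hℓ
      intro y hy
      have h1 := hc _ hy
      rw [hh0, hh2] at h1
      rw [hmem ℓ hℓ, hout ℓ hℓ hvℓ, ← e1, ← e2]
      linear_combination -h1
    · have hne := hs_ne ζ hζ
      have hθ : (α * s₀ - γ * (t₀ * ζ)) / (s₀ - t₀ * ζ) ∈ Θ := by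
        rw [hΘiff]
        refine ⟨ζ, hζ, sub_ne_zero.mp hne, ?_⟩
        field_simp
      obtain ⟨ℓ, hℓ, hvℓ, heθ⟩ := hΘmem _ hθ
      have heθ' : α * s₀ - γ * (t₀ * ζ) = a ℓ 2 * (s₀ - t₀ * ζ) := by
        rw [← heθ]; field_simp
      apply hfinish ℓ hℓ
      intro y hy
      have h1 := hc _ hy
      rw [hh1, hh2] at h1
      rw [hmem ℓ hℓ, (hin ℓ hℓ hvℓ).1, (hin ℓ hℓ hvℓ).2]
      apply mul_left_cancel₀ hne
      linear_combination h1 - M y 2 * heθ'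

end Pool.Agent.Results.MP_75cc19_co.MultiplicityThird
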