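import Pool.Agent.Run7.h321.TwoProj

set_option autoImplicit false

namespace Pool.Agent.Results.MP_75cc19_co.OddMultiplicities

open Run7.h321

/-- The cross product. -/
private def cr {F : Type*} [Field F] (a b : Fin 3 → F) : Fin 3 → F :=
  ![a 1 * b 2 - a 2 * b 1, a 2 * b 0 - a 0 * b 2, a 0 * b 1 - a 1 * b 0]

/-- Let `K` be a subfield of the complex numbers which has a discrete valuation ring with residue
field of order two (for example the rationals, the Gaussian rationals, or the field generated by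
the square root of minus seven). Then every finite set of lines of the complex projective plane,
all defined over `K` up to one projectivity, all of whose intersection points lie on an odd number
of the lines, is a pencil. -/
theorem result (K : Subfield ℂ) (O : ValuationSubring K) [IsDiscreteValuationRing O]
    (hO : Nat.card (IsLocalRing.ResidueField O) = 2)
    (A : Set (Submodule ℂ (Fin 3 → ℂ))) (hfin : A.Finite)
    (hline : ∀ ℓ ∈ A, Module.finrank ℂ ℓ = 2)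
    (hodd : ∀ ℓ₁ ∈ A, ∀ ℓ₂ ∈ A, ℓ₁ ≠ ℓ₂ → ∀ p : Submodule ℂ (Fin 3 → ℂ),
      Module.finrank ℂ p = 1 → p ≤ ℓ₁ → p ≤ ℓ₂ → Odd {ℓ | ℓ ∈ A ∧ p ≤ ℓ}.ncard)
    (hdef : ∃ g : (Fin 3 → ℂ) ≃ₗ[ℂ] (Fin 3 → ℂ), ∀ ℓ ∈ A, ∃ c : Fin 3 → K,
      c ≠ 0 ∧ ∀ x ∈ ℓ, ∑ i, (c i : ℂ) * g x i = 0) :
    ∃ p : Submodule ℂ (Fin 3 → ℂ), Module.finrank ℂ p = 1 ∧ ∀ ℓ ∈ A, p ≤ ℓ := by
  classical
  obtain ⟨g, hg⟩ := hdef
  choose! c hc0 hc using hg
  -- membership in a line of `A` is given by the equation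
  have hmem : ∀ ℓ ∈ A, ∀ x : Fin 3 → ℂ, x ∈ ℓ ↔ ∑ i, (c ℓ i : ℂ) * g x i = 0 := by
    intro ℓ hℓ
    let φ : (Fin 3 → ℂ) →ₗ[ℂ] ℂ :=
      (∑ i, (c ℓ i : ℂ) • LinearMap.proj i) ∘ₗ g.toLinearMap
    have hφ : ∀ x, φ x = ∑ i, (c ℓ i : ℂ) * g x i := by
      intro x
      simp [φ, LinearMap.sum_apply]
    have hφ0 : φ ≠ 0 := by
      intro h0
      apply hc0 ℓ hℓ
      funext i
      have h1 := congrArg (fun f => f (g.symm (Pi.single i 1))) h0
      simp only [hφ, LinearEquiv.apply_symm_apply, LinearMap.zero_apply] at h1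
      rw [Finset.sum_eq_single i] at h1
      · simp only [Pi.single_eq_same, mul_one] at h1
        simpa using h1
      · intro j _ hj
        simp [hj]
      · simp
    have hle : ℓ ≤ LinearMap.ker φ := by
      intro x hx
      rw [LinearMap.mem_ker, hφ]
      exact hc ℓ hℓ x hx
    have hrk : Module.finrank ℂ (LinearMap.ker φ) = 2 := by
      have h1 := LinearMap.finrank_range_add_finrank_ker φ
      have h2 : Module.finrank ℂ (LinearMap.range φ) = 1 := by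
        rw [LinearMap.range_eq_top.mpr (LinearMap.surjective hφ0)]
        simp
      rw [h2] at h1
      simp at h1
      omega
    have heq : ℓ = LinearMap.ker φ := by
      apply Submodule.eq_of_le_of_finrank_eq hle
      rw [hline ℓ hℓ, hrk]
    intro x
    conv_lhs => rw [heq]
    rw [LinearMap.mem_ker, hφ]
  -- the point given by the cross product
  have hsum : ∀ (a : Fin 3 → K) (b : Fin 3 → K) (d : Fin 3 → K),
      ∑ i, (d i : ℂ) * ((cr a b i : K) : ℂ) = ((det3 a b d : K) : ℂ) := by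
    intro a b d
    rw [Fin.sum_univ_three]
    simp [cr, det3]
    ring
  have hne : ∀ ℓ₁ ∈ A, ∀ ℓ₂ ∈ A, ℓ₁ ≠ ℓ₂ → cr (c ℓ₁) (c ℓ₂) ≠ 0 := by
    intro ℓ₁ h₁ ℓ₂ h₂ h12 h0
    apply h12
    have e0 : c ℓ₁ 1 * c ℓ₂ 2 - c ℓ₁ 2 * c ℓ₂ 1 = 0 := congrFun h0 0
    have e1 : c ℓ₁ 2 * c ℓ₂ 0 - c ℓ₁ 0 * c ℓ₂ 2 = 0 := congrFun h0 1
    have e2 : c ℓ₁ 0 * c ℓ₂ 1 - c ℓ₁ 1 * c ℓ₂ 0 = 0 := congrFun h0 2
    -- proportionality
    obtain ⟨k, hk⟩ : ∃ k, c ℓ₁ k ≠ 0 := by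
      by_contra hcon
      push Not at hcon
      exact hc0 ℓ₁ h₁ (funext hcon)
    have hprop : ∀ i, c ℓ₂ i * c ℓ₁ k = c ℓ₂ k * c ℓ₁ i := by
      intro i
      fin_cases i <;> fin_cases k <;> simp only [Fin.zero_eta, Fin.mk_one, Fin.reduceFinMk] <;>
        first
          | ring1
          | linear_combination e0
          | linear_combination -e0
          | linear_combination e1
          | linear_combination -e1
          | linear_combination e2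
          | linear_combination -e2
    have hle : ℓ₁ ≤ ℓ₂ := by
      intro x hx
      rw [hmem ℓ₂ h₂]
      rw [hmem ℓ₁ h₁] at hx
      have hk' : (c ℓ₁ k : ℂ) ≠ 0 := by exact_mod_cast hk
      have : (c ℓ₁ k : ℂ) * ∑ i, (c ℓ₂ i : ℂ) * g x i = 0 := by
        calc (c ℓ₁ k : ℂ) * ∑ i, (c ℓ₂ i : ℂ) * g x i
            = ∑ i, ((c ℓ₂ i * c ℓ₁ k : K) : ℂ) * g x i := by
              rw [Finset.mul_sum]
              apply Finset.sum_congr rfl
              intro i _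
              push_cast; ring
          _ = ∑ i, ((c ℓ₂ k * c ℓ₁ i : K) : ℂ) * g x i := by
              apply Finset.sum_congr rfl
              intro i _
              rw [hprop]
          _ = (c ℓ₂ k : ℂ) * ∑ i, (c ℓ₁ i : ℂ) * g x i := by
              rw [Finset.mul_sum]
              apply Finset.sum_congr rfl
              intro i _
              push_cast; ring
          _ = 0 := by rw [hx, mul_zero]
      exact (mul_eq_zero.mp this).resolve_left hk'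
    exact Submodule.eq_of_le_of_finrank_eq hle (by rw [hline ℓ₁ h₁, hline ℓ₂ h₂])
  -- the common point of two lines
  let pt : Submodule ℂ (Fin 3 → ℂ) → Submodule ℂ (Fin 3 → ℂ) → (Fin 3 → ℂ) :=
    fun ℓ₁ ℓ₂ => g.symm (fun i => ((cr (c ℓ₁) (c ℓ₂) i : K) : ℂ))
  have hpt0 : ∀ ℓ₁ ∈ A, ∀ ℓ₂ ∈ A, ℓ₁ ≠ ℓ₂ → pt ℓ₁ ℓ₂ ≠ 0 := by
    intro ℓ₁ h₁ ℓ₂ h₂ h12 h0
    apply hne ℓ₁ h₁ ℓ₂ h₂ h12
    have h1 := (LinearEquiv.map_eq_zero_iff g.symm).mp h0
    funext i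
    have h2 : ((cr (c ℓ₁) (c ℓ₂) i : K) : ℂ) = 0 := congrFun h1 i
    exact_mod_cast h2
  have hptmem : ∀ ℓ₁ ∈ A, ∀ ℓ₂ ∈ A, ∀ ℓ₃ ∈ A,
      (pt ℓ₁ ℓ₂ ∈ ℓ₃ ↔ det3 (c ℓ₁) (c ℓ₂) (c ℓ₃) = 0) := by
    intro ℓ₁ _ ℓ₂ _ ℓ₃ h₃
    rw [hmem ℓ₃ h₃]
    simp only [pt, LinearEquiv.apply_symm_apply]
    rw [hsum]
    exact_mod_cast Iff.rfl
  obtain ⟨R⟩ := Two.exists_red O hO
  obtain ⟨w, D⟩ := Two.exists_dv O R
  have hAfin : Finite A := hfin
  have hft : Fintype A := Fintype.ofFinite A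
  have h2 : (2 : K) ≠ 0 := two_ne_zero
  have hinf : Infinite K := inferInstance
  have S : Two.Sys (fun ℓ : A => c ℓ.1) := by
    refine ⟨?_, ?_, ?_⟩
    · rintro ⟨ℓ, hℓ⟩
      by_contra hcon
      push Not at hcon
      exact hc0 ℓ hℓ (funext hcon)
    · rintro ⟨ℓ₁, h₁⟩ ⟨ℓ₂, h₂⟩ h12 ⟨e0, e1, e2⟩
      apply hne ℓ₁ h₁ ℓ₂ h₂ (fun h => h12 (Subtype.ext h))
      funext i
      fin_cases i
      · exact e0
      · exact e1
      · exact e2
    · rintro ⟨ℓ₁, h₁⟩ ⟨ℓ₂, h₂⟩ h12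
      have h12' : ℓ₁ ≠ ℓ₂ := fun h => h12 (Subtype.ext h)
      have h3 := hodd ℓ₁ h₁ ℓ₂ h₂ h12' (Submodule.span ℂ {pt ℓ₁ ℓ₂})
        (finrank_span_singleton (hpt0 ℓ₁ h₁ ℓ₂ h₂ h12'))
        (by
          rw [Submodule.span_singleton_le_iff_mem, hptmem ℓ₁ h₁ ℓ₂ h₂ ℓ₁ h₁]
          unfold det3; ring)
        (by
          rw [Submodule.span_singleton_le_iff_mem, hptmem ℓ₁ h₁ ℓ₂ h₂ ℓ₂ h₂]
          unfold det3; ring)
      have himg : {ℓ | ℓ ∈ A ∧ Submodule.span ℂ {pt ℓ₁ ℓ₂} ≤ ℓ}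
          = Subtype.val '' (((Finset.univ.filter fun k : A =>
            det3 (c ℓ₁) (c ℓ₂) (c k.1) = 0) : Finset A) : Set A) := by
        ext ℓ
        simp only [Set.mem_setOf_eq, Set.mem_image, Finset.coe_filter, Finset.mem_univ, true_and]
        constructor
        · rintro ⟨hℓ, hle⟩
          rw [Submodule.span_singleton_le_iff_mem, hptmem ℓ₁ h₁ ℓ₂ h₂ ℓ hℓ] at hle
          exact ⟨⟨ℓ, hℓ⟩, hle, rfl⟩
        · rintro ⟨⟨ℓ', hℓ'⟩, hd, rfl⟩
          refine ⟨hℓ', ?_⟩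
          rw [Submodule.span_singleton_le_iff_mem, hptmem ℓ₁ h₁ ℓ₂ h₂ ℓ' hℓ']
          exact hd
      rw [himg, Set.ncard_image_of_injective _ Subtype.val_injective,
        Set.ncard_coe_finset] at h3
      exact h3
  have key := Two.proj_two (K := K) R D h2 (ι := A) (fun ℓ => c ℓ.1) S
  · -- conclusion
    by_cases hsub : ∃ ℓ₁ ∈ A, ∃ ℓ₂ ∈ A, ℓ₁ ≠ ℓ₂
    · obtain ⟨ℓ₁, h₁, ℓ₂, h₂, h12⟩ := hsub
      refine ⟨Submodule.span ℂ {pt ℓ₁ ℓ₂}, finrank_span_singleton (hpt0 ℓ₁ h₁ ℓ₂ h₂ h12), ?_⟩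
      intro ℓ hℓ
      rw [Submodule.span_singleton_le_iff_mem, hptmem ℓ₁ h₁ ℓ₂ h₂ ℓ hℓ]
      exact key ⟨ℓ₁, h₁⟩ ⟨ℓ₂, h₂⟩ ⟨ℓ, hℓ⟩
    · push Not at hsub
      by_cases hne' : A.Nonempty
      · obtain ⟨ℓ, hℓ⟩ := hne'
        have hpos : ℓ ≠ ⊥ := by
          rintro rfl
          have := hline _ hℓ
          simp at this
        obtain ⟨x, hx, hx0⟩ := Submodule.exists_mem_ne_zero_of_ne_bot hpos
        refine ⟨Submodule.span ℂ {x}, finrank_span_singleton hx0, ?_⟩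
        intro ℓ' hℓ'
        rw [hsub ℓ' hℓ' ℓ hℓ, Submodule.span_singleton_le_iff_mem]
        exact hx
      · refine ⟨Submodule.span ℂ {Pi.single 0 1}, finrank_span_singleton ?_, ?_⟩
        · intro h
          have := congrFun h 0
          simp at this
        · intro ℓ hℓ
          exact absurd ⟨ℓ, hℓ⟩ hne'

end Pool.Agent.Results.MP_75cc19_co.OddMultiplicities
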